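import Pool.Agent.H78.KP.Stmts
import Pool.Agent.H84.Sym.F2

/-!
# Project KP, module GBI: monotonicity, start and use of `GB`
-/

set_option autoImplicit false

open MeasureTheory Set Filter Topology
open scoped ContDiff

namespace Pool.Agent.H78.KP

open Pool.Agent.H84 Pool.Agent.H84.Sym Pool.Agent.H84.Sym.P2x Pool.Agent.H19.KL
open Pool.Agent.H73.KG Pool.Agent.H20.KH

variable {E : Type} [NormedAddCommGroup E] [InnerProductSpace ℝ E]
    [FiniteDimensional ℝ E] [MeasurableSpace E] [BorelSpace E]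

theorem GBI_psd {ι : Type} [Fintype ι] {M : Matrix ι ι ℝ} (h : M.PosSemidef) (x : ι → ℝ) :
    0 ≤ ∑ i, ∑ j, M i j * (x i * x j) := by
  have h1 := h.dotProduct_mulVec_nonneg x
  refine h1.trans (le_of_eq ?_)
  simp only [star_trivial, dotProduct, Matrix.mulVec, Finset.mul_sum]
  exact Finset.sum_congr rfl fun i _ => Finset.sum_congr rfl fun j _ => by ring

theorem GBI_one {ι : Type} [Fintype ι] [DecidableEq ι] (b : OrthonormalBasis ι ℝ E) (f : E → ℝ)
    (x : E) : ∑ i, ∑ j, (1 : Matrix ι ι ℝ) i j * (D (b i) f x * D (b j) f x) =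
      ‖fderiv ℝ f x‖ ^ 2 := by
  rw [norm_fderiv_sq b]
  refine Finset.sum_congr rfl fun i _ => ?_
  rw [Finset.sum_eq_single i]
  · rw [Matrix.one_apply_eq, one_mul, sq]
  · intro j _ hj
    rw [Matrix.one_apply_ne hj.symm, zero_mul]
  · simp

theorem GBI_cs {f : E → ℝ} (hf : ContDiff ℝ 1 f) (hc : HasCompactSupport f) (e e' : E) (c : ℝ)
    (U : E → ℝ) [IsProbabilityMeasure (mu U)] :
    Integrable (fun x => c * (D e f x * D e' f x)) (mu U) := by
  have h1 : ∀ e : E, Continuous (D e f) := fun e =>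
    (hf.continuous_fderiv (by norm_num)).clm_apply continuous_const
  refine Continuous.integrable_of_hasCompactSupport
    (continuous_const.mul ((h1 e).mul (h1 e'))) ?_
  refine HasCompactSupport.intro (hc.fderiv ℝ) fun x hx => ?_
  have h2 : fderiv ℝ f x = 0 := image_eq_zero_of_notMem_tsupport hx
  simp [D, h2]

theorem GBI_int {ι : Type} [Fintype ι] (b : OrthonormalBasis ι ℝ E) (M : Matrix ι ι ℝ)
    {f : E → ℝ} (hf : ContDiff ℝ 1 f) (hc : HasCompactSupport f)
    (U : E → ℝ) [IsProbabilityMeasure (mu U)] :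
    Integrable (fun x => ∑ i, ∑ j, M i j * (D (b i) f x * D (b j) f x)) (mu U) :=
  integrable_finsetSum _ fun _ _ => integrable_finsetSum _ fun _ _ => GBI_cs hf hc _ _ _ _

theorem GBI_Y {ι : Type} [Fintype ι] [DecidableEq ι] (b : OrthonormalBasis ι ℝ E) (U f : E → ℝ) :
    Y1 U f = WD b 1 U f := by
  unfold Y1 WD
  exact integral_congr_ae (Eventually.of_forall fun x => (GBI_one b f x).symm)

/-- the Dirichlet form is monotone in the matrix -/
theorem GBI_mono {ι : Type} [Fintype ι] (b : OrthonormalBasis ι ℝ E) (M N : Matrix ι ι ℝ)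
    (h : (N - M).PosSemidef) {f : E → ℝ} (hf : ContDiff ℝ 1 f) (hc : HasCompactSupport f)
    (U : E → ℝ) [IsProbabilityMeasure (mu U)] : WD b M U f ≤ WD b N U f := by
  unfold WD
  refine integral_mono (GBI_int b M hf hc U) (GBI_int b N hf hc U) fun x => ?_
  have h1 := GBI_psd h (fun i => D (b i) f x)
  simp only [Matrix.sub_apply, sub_mul, Finset.sum_sub_distrib] at h1
  linarith

theorem GBI_smul {ι : Type} [Fintype ι] (b : OrthonormalBasis ι ℝ E) (M : Matrix ι ι ℝ) (c : ℝ)
    (U f : E → ℝ) : WD b (c • M) U f = c * WD b M U f := by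
  unfold WD
  rw [← integral_const_mul]
  refine integral_congr_ae (Eventually.of_forall fun x => ?_)
  simp only [Matrix.smul_apply, smul_eq_mul, Finset.mul_sum, mul_assoc]

theorem gbi_thm (hB : BASStmt E) : GBIStmt E := by
  obtain ⟨-, h2, -, -, -, h6, -⟩ := hB
  have hcv : ∀ (U f : E → ℝ) [IsProbabilityMeasure (mu U)], H73.KG.cv U f f =
      (mu U).real univ * (∫ x, f x ^ 2 ∂(mu U)) - (∫ x, f x ∂(mu U)) ^ 2 := by
    intro U f _
    rw [probReal_univ, one_mul, H73.KG.cv, sq]
    simp only [← sq]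
  refine ⟨?_, ?_⟩
  · intro t g ht hg U hU ι _ _ b f hf hc
    have : IsProbabilityMeasure (mu U) := hU.2
    have h3 := h2 U t hU f hf hc
    rw [← hcv U f, probReal_univ, one_mul] at h3
    change H73.KG.cv U f f ≤ 1 / t * Y1 U f at h3
    have h4 : Y1 U f ≤ WD b (cm b U + 1) U f := by
      rw [GBI_Y b]
      refine GBI_mono b _ _ ?_ hf hc U
      rw [add_sub_cancel_right]
      exact (h6 U t hU ι b).1
    have h5 : 0 ≤ Y1 U f := integral_nonneg fun x => by positivity
    calc H73.KG.cv U f f ≤ 1 / t * Y1 U f := h3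
      _ ≤ 1 * Y1 U f := by
        refine mul_le_mul_of_nonneg_right ?_ h5
        rw [div_le_one (by linarith)]
        exact ht
      _ ≤ g * Y1 U f := mul_le_mul_of_nonneg_right hg h5
      _ ≤ g * WD b (cm b U + 1) U f := mul_le_mul_of_nonneg_left h4 (by linarith)
  · intro t g hG hg U a hU ha hC f hf hc
    have : IsProbabilityMeasure (mu U) := hU.2
    rw [← hcv U f, probReal_univ, one_mul]
    change H73.KG.cv U f f ≤ g * (a + 1) * Y1 U f
    classical
    let b := stdOrthonormalBasis ℝ E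
    have h1 := hG U hU _ b f hf hc
    have h3 : WD b (cm b U + 1) U f ≤ (a + 1) * Y1 U f := by
      rw [GBI_Y b, ← GBI_smul b]
      refine GBI_mono b _ _ ?_ hf hc U
      have h4 := (h6 U t hU _ b).2 a hC
      have h5 : (a + 1) • (1 : Matrix _ _ ℝ) - (cm b U + 1) = a • 1 - cm b U := by
        rw [add_smul, one_smul]
        abel
      rw [h5]
      exact h4
    calc H73.KG.cv U f f ≤ g * WD b (cm b U + 1) U f := h1
      _ ≤ g * ((a + 1) * Y1 U f) := mul_le_mul_of_nonneg_left h3 hg
      _ = g * (a + 1) * Y1 U f := by ring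

end Pool.Agent.H78.KP
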