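import Pool.Agent.H78.KP.Stmts

/-!
# Project KP, module THD: the bound for `GB` in terms of the third moments
-/

set_option autoImplicit false

namespace Pool.Agent.H78.KP

variable {E : Type} [NormedAddCommGroup E] [InnerProductSpace ℝ E]
    [FiniteDimensional ℝ E] [MeasurableSpace E] [BorelSpace E]

theorem thd_thm (hS : STQStmt E) (hG : GBIStmt E) (hI : INTStmt) : THDStmt E := by
  intro t0 K ht0 ht1 hK hT
  obtain ⟨C, hC, h⟩ := hS t0 ht0 ht1
  exact hI (GB E) t0 K C ht0 ht1 hK hC hG.1 (h K hK hT)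

end Pool.Agent.H78.KP
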